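import Pool.Agent.Helper51.CX.St

set_option autoImplicit false

/-!
Project CX (MP_a41ee4_co), module TRA: (1.3) of the paper proof.
-/

namespace Pool.Agent.Helper75.CX

open Pool.Agent.Helper51.CX

private theorem qx64 : qx 64 = 0 := by decide +kernel

private theorem qy64 : qy 64 = 0 := by decide +kernel

private theorem ffb : ∀ j < 64, 32 ≤ j → 3869 ≤ fx j ^ 2 + fy j ^ 2 ∧ fx j ^ 2 + fy j ^ 2 ≤ 6469 := by
  decide +kernel

private theorem vbd (j k : ℕ) (hj : j < 64) (hk : k < 66) : |vx j k| ≤ 3414 ∧ |vy j k| ≤ 3414 := by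
  obtain ⟨a1, a2, -⟩ := hT2 j hj
  by_cases h5 : k = 65
  · simp only [vx, vy, if_pos h5]
    norm_num
  · simp only [vx, vy, if_neg h5]
    by_cases h4 : k = 64
    · rw [h4, qx64, qy64]
      rw [abs_le] at a1 a2
      exact ⟨abs_le.2 ⟨by linarith [a1.1], by linarith [a1.2]⟩,
        abs_le.2 ⟨by linarith [a2.1], by linarith [a2.2]⟩⟩
    · obtain ⟨b1, b2, -⟩ := hT2 k (by omega)
      rw [abs_le] at a1 a2 b1 b2
      exact ⟨abs_le.2 ⟨by linarith [a1.1, b1.2], by linarith [a1.2, b1.1]⟩,
        abs_le.2 ⟨by linarith [a2.1, b2.2], by linarith [a2.2, b2.1]⟩⟩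

private theorem cbd (j k : ℕ) (hj : j < 64) (hj' : 32 ≤ j) (hk : k < 66) (h1 : k ≠ j) (h2 : k ≠ ga j)
    (h3 : k ≠ gb j) : 50 ≤ |vx j k * fx j + vy j k * fy j| := by
  by_cases h5 : k = 65
  · have hx : vx j k = 1 := by simp only [vx, if_pos h5]
    have hy : vy j k = 0 := by simp only [vy, if_pos h5]
    rw [hx, hy]
    rcases (hT0 j hj hj').1 with h | h <;> rw [h] <;> norm_num
  · have h := hT3 j hj hj' k (by omega) h1 h2 h3
    exact le_trans (by linarith) (le_abs_self _)

/-- (TRA) -/
theorem hTRA : StAPP → StTRA := by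
  intro hAPP K _ _ _ j hj' hj k hk h1 h2 h3 d hd
  have happ := hAPP K j hj' hj k hk h1 d hd
  obtain ⟨va, vb⟩ := vbd j k hj hk
  have vc := cbd j k hj hj' hk h1 h2 h3
  obtain ⟨f1, f2⟩ := ffb j hj hj'
  obtain ⟨-, -, gx, gy, -⟩ := hT2 j hj
  have va' : |(vx j k : K)| ≤ 3414 := by exact_mod_cast va
  have vb' : |(vy j k : K)| ≤ 3414 := by exact_mod_cast vb
  have vc' : (50 : K) ≤ |(vx j k : K) * (fx j : K) + (vy j k : K) * (fy j : K)| := by exact_mod_cast vc
  have gx' : |(fx j : K)| ≤ 50 := by exact_mod_cast gx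
  have gy' : |(fy j : K)| ≤ 63 := by exact_mod_cast gy
  have F1 : (3869 : K) ≤ FF K j := by
    simp only [FF]; exact_mod_cast f1
  have F2 : FF K j ≤ (6469 : K) := by
    simp only [FF]; exact_mod_cast f2
  have e0 := FF_d0 (K := K) j d
  have e1 := FF_d1 (K := K) j d
  set a : K := (vx j k : K) with ha
  set b : K := (vy j k : K) with hb
  set f : K := (fx j : K) with hf
  set g : K := (fy j : K) with hg
  set p : K := pp j d with hp
  set w : K := ww j d with hw
  set F : K := FF K j with hF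
  have Fpos : 0 < F := by linarith
  have hp0 := abs_nonneg p
  have hw0 := abs_nonneg w
  have hm0 := mm_nonneg d
  have hn0 := nn_nonneg d
  -- products of bounded factors
  have key : ∀ (s t B : K), |s| ≤ B → |s * t| ≤ B * |t| := fun s t B hs => by
    rw [abs_mul]; exact mul_le_mul_of_nonneg_right hs (abs_nonneg _)
  -- size of the far part
  have k0 : F * |d 0| ≤ 50 * |p| + 63 * |w| := by
    have h : F * |d 0| = |f * p - g * w| := by
      rw [← e0, abs_mul, abs_of_pos Fpos]
    rw [h]
    have := abs_sub (f * p) (g * w)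
    have u1 := key f p _ gx'
    have u2 := key g w _ gy'
    linarith
  have k1 : F * |d 1| ≤ 63 * |p| + 50 * |w| := by
    have h : F * |d 1| = |g * p + f * w| := by
      rw [← e1, abs_mul, abs_of_pos Fpos]
    rw [h]
    have := abs_add_le (g * p) (f * w)
    have u1 := key g p _ gy'
    have u2 := key f w _ gx'
    linarith
  have kn : F * nn d ≤ 113 * (|p| + |w|) := by
    simp only [nn]
    linarith
  -- the main identity
  have hid : F * (a * d 0 + b * d 1) = (a * f + b * g) * p + (b * f - a * g) * w := by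
    have : F * (a * d 0 + b * d 1) = a * (F * d 0) + b * (F * d 1) := by ring
    rw [this, e0, e1]
    ring
  have he : |b * f - a * g| ≤ 385782 := by
    have t1 := abs_sub (b * f) (a * g)
    have t2 : |b * f| ≤ 3414 * 50 := by
      rw [abs_mul]; exact mul_le_mul vb' gx' (abs_nonneg _) (by norm_num)
    have t3 : |a * g| ≤ 3414 * 63 := by
      rw [abs_mul]; exact mul_le_mul va' gy' (abs_nonneg _) (by norm_num)
    linarith
  have h50 : 50 * |p| ≤ F * |a * d 0 + b * d 1| + 385782 * |w| := by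
    have t1 : 50 * |p| ≤ |(a * f + b * g) * p| := by
      rw [abs_mul]; exact mul_le_mul_of_nonneg_right vc' hp0
    have t2 : (a * f + b * g) * p = F * (a * d 0 + b * d 1) - (b * f - a * g) * w := by
      rw [hid]; ring
    have t3 := abs_sub (F * (a * d 0 + b * d 1)) ((b * f - a * g) * w)
    rw [← t2] at t3
    have t4 := key (b * f - a * g) w _ he
    have t5 : |F * (a * d 0 + b * d 1)| = F * |a * d 0 + b * d 1| := by
      rw [abs_mul, abs_of_pos Fpos]
    linarith
  have hA : 10 ^ 35 * (F * |a * d 0 + b * d 1|) ≤ 10 ^ 20 * (F * nn d) + F * mm d := by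
    have t := mul_le_mul_of_nonneg_left happ Fpos.le
    linarith
  have hFm : F * mm d ≤ 6469 * mm d := mul_le_mul_of_nonneg_right F2 hm0
  linarith

end Pool.Agent.Helper75.CX
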